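import Pool.Agent.R723.DioTriple

namespace Pool.Agent.Results.MP_618be3_nt.NoZ2Z6

open Pool.Agent.MP618be3 WeierstrassCurve WeierstrassCurve.Affine

section
variable {K : Type*} [Field K] [NumberField K] [DecidableEq K]

theorem no_three (a b c : ℤ) (hD : IsDiophantineTriple a b c) (hR : IsRegular a b c)
    (hK : Module.finrank ℚ K = 2) (P : ((inducedCurve a b c)⁄K).Point) (hP : P + P = -P) :
    P = 0 := by
  have : Algebra.IsQuadraticExtension ℚ K := ⟨hK⟩
  by_contra hP0
  match P, hP, hP0 with
  | 0, _, hP0 => exact hP0 rfl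
  | Affine.Point.some x y h, hP, hP0 =>
    have h3 := psi3 a b c h hP
    by_cases hx : x ∈ Set.range (algebraMap ℚ K)
    · exact no_root' a b c hD hR x hx h3
    rw [IsGalois.mem_range_algebraMap_iff_fixed] at hx
    push Not at hx
    obtain ⟨σ, hσ⟩ := hx
    have hcard : Nat.card (K ≃ₐ[ℚ] K) = 2 := by
      rw [IsGalois.card_aut_eq_finrank, hK]
    have hσ1 : σ ≠ 1 := by
      rintro rfl; exact hσ rfl
    have hall : ∀ τ : K ≃ₐ[ℚ] K, τ = 1 ∨ τ = σ := by
      intro τ
      by_contra hcon
      push Not at hcon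
      have hfin : Finite (K ≃ₐ[ℚ] K) := Nat.finite_of_card_ne_zero (by rw [hcard]; norm_num)
      have : Fintype (K ≃ₐ[ℚ] K) := Fintype.ofFinite _
      classical
      have h2 : ({1, σ, τ} : Finset (K ≃ₐ[ℚ] K)).card = 3 := by
        rw [Finset.card_eq_three]
        exact ⟨1, σ, τ, hσ1.symm, hcon.1.symm, hcon.2.symm, rfl⟩
      have h4 := Finset.card_le_univ ({1, σ, τ} : Finset (K ≃ₐ[ℚ] K))
      rw [h2, ← Nat.card_eq_fintype_card, hcard] at h4
      omega
    have hσσ : ∀ z, σ (σ z) = z := by
      intro z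
      have h5 : σ * σ = 1 := by
        rcases hall (σ * σ) with h | h
        · exact h
        · exact absurd (mul_eq_left.mp h) hσ1
      have := congrArg (fun f => f z) h5
      simpa using this
    obtain ⟨P, hPdef⟩ : ∃ P : ((inducedCurve a b c)⁄K).Point, P = Affine.Point.some x y h :=
      ⟨_, rfl⟩
    rw [← hPdef] at hP hP0
    obtain ⟨Q, hQdef⟩ : ∃ Q : ((inducedCurve a b c)⁄K).Point,
      Q = P + Affine.Point.map (W' := inducedCurve a b c) (σ : K →ₐ[ℚ] K) P := ⟨_, rfl⟩
    have hQ3 : Q + Q = -Q := by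
      have h6 : Affine.Point.map (W' := inducedCurve a b c) (σ : K →ₐ[ℚ] K) P
          + Affine.Point.map (W' := inducedCurve a b c) (σ : K →ₐ[ℚ] K) P
          = - Affine.Point.map (W' := inducedCurve a b c) (σ : K →ₐ[ℚ] K) P := by
        rw [← map_add, hP, map_neg]
      rw [hQdef, add_add_add_comm, hP, h6, neg_add]
    have hmm : ∀ R : ((inducedCurve a b c)⁄K).Point,
        Affine.Point.map (W' := inducedCurve a b c) (σ : K →ₐ[ℚ] K)
          (Affine.Point.map (W' := inducedCurve a b c) (σ : K →ₐ[ℚ] K) R) = R := by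
      intro R
      match R with
      | 0 => simp
      | Affine.Point.some x' y' h' =>
        rw [Affine.Point.map_some, Affine.Point.map_some, Affine.Point.some.injEq]
        exact ⟨hσσ x', hσσ y'⟩
    have hQσ : Affine.Point.map (W' := inducedCurve a b c) (σ : K →ₐ[ℚ] K) Q = Q := by
      rw [hQdef, map_add, hmm, add_comm]
    have hQ0 : Q ≠ 0 := by
      intro h0
      rw [hQdef] at h0
      have h7 := eq_neg_of_add_eq_zero_right h0
      rw [hPdef, Affine.Point.map_some, Affine.Point.neg_some, Affine.Point.some.injEq] at h7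
      exact hσ h7.1
    match Q, hQ3, hQσ, hQ0 with
    | 0, _, _, hQ0 => exact hQ0 rfl
    | Affine.Point.some x' y' h', hQ3, hQσ, hQ0 =>
      have h8 := psi3 a b c h' hQ3
      rw [Affine.Point.map_some, Affine.Point.some.injEq] at hQσ
      refine no_root' a b c hD hR x' ?_ h8
      rw [IsGalois.mem_range_algebraMap_iff_fixed]
      intro τ
      rcases hall τ with rfl | rfl
      · rfl
      · exact hQσ.1
end

open Classical in
/-- Let `{a,b,c}` be a regular Diophantine triple in integers and `K` a quadratic field. The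
Weierstrass model `Y^2 = (X+bc)(X+ca)(X+ab)` of the induced curve (first clause: the change of
variables `X = abc x`, `Y = abc y`) has no `K`-rational point of order three; in particular
`E(K)_tors` is never isomorphic to `Z/2 x Z/6`. -/
theorem result (a b c : ℤ) (hD : IsDiophantineTriple a b c) (hR : IsRegular a b c)
    (K : Type*) [Field K] [NumberField K] (hK : Module.finrank ℚ K = 2) :
    (∀ x y : K, ((inducedCurve a b c)⁄K).Nonsingular (a * b * c * x) (a * b * c * y) ↔
      y ^ 2 = (a * x + 1) * (b * x + 1) * (c * x + 1)) ∧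
    (∀ P : ((inducedCurve a b c)⁄K).Point, 3 • P = 0 → P = 0) ∧
    ¬ Nonempty (AddCommGroup.torsion ((inducedCurve a b c)⁄K).Point ≃+ ZMod 2 × ZMod 6) := by
  have h3 : ∀ P : ((inducedCurve a b c)⁄K).Point, 3 • P = 0 → P = 0 := by
    intro P hP
    apply no_three a b c hD hR hK P
    have : P + P + P = 0 := by rw [← hP]; abel
    exact eq_neg_of_add_eq_zero_left this
  refine ⟨?_, h3, ?_⟩
  · intro x y
    obtain ⟨ha, hb, hc, hab, hac, hbc, -, -, -⟩ := hD
    have ha' : (a : K) ≠ 0 := by exact_mod_cast ha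
    have hb' : (b : K) ≠ 0 := by exact_mod_cast hb
    have hc' : (c : K) ≠ 0 := by exact_mod_cast hc
    have hab' : (a : K) - b ≠ 0 := by
      rw [sub_ne_zero]; exact_mod_cast hab
    have hac' : (a : K) - c ≠ 0 := by
      rw [sub_ne_zero]; exact_mod_cast hac
    have hbc' : (b : K) - c ≠ 0 := by
      rw [sub_ne_zero]; exact_mod_cast hbc
    have hA1 := cA1 (K := K) a b c
    have hA3 := cA3 (K := K) a b c
    have hA2 := cA2 (K := K) a b c
    have hA4 := cA4 (K := K) a b c
    have hA6 := cA6 (K := K) a b c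
    have hΔ : ((inducedCurve a b c)⁄K).Δ ≠ 0 := by
      have : ((inducedCurve a b c)⁄K).Δ
          = 16 * ((a : K) * b * c) ^ 2 * (((a : K) - b) * ((a : K) - c) * ((b : K) - c)) ^ 2 := by
        unfold WeierstrassCurve.Δ WeierstrassCurve.b₂ WeierstrassCurve.b₄ WeierstrassCurve.b₆
          WeierstrassCurve.b₈
        rw [hA1, hA2, hA3, hA4, hA6]
        ring
      rw [this]
      have h16 : (16 : K) ≠ 0 := by norm_num
      exact mul_ne_zero (mul_ne_zero h16 (pow_ne_zero 2 (mul_ne_zero (mul_ne_zero ha' hb') hc')))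
        (pow_ne_zero 2 (mul_ne_zero (mul_ne_zero hab' hac') hbc'))
    rw [← Affine.equation_iff_nonsingular_of_Δ_ne_zero hΔ, Affine.equation_iff,
      hA1, hA2, hA3, hA4, hA6]
    have hN : ((a : K) * b * c) ^ 2 ≠ 0 := pow_ne_zero 2 (mul_ne_zero (mul_ne_zero ha' hb') hc')
    constructor
    · intro h
      apply mul_left_cancel₀ hN
      linear_combination h
    · intro h
      linear_combination ((a : K) * b * c) ^ 2 * h
  · rintro ⟨e⟩
    obtain ⟨g, hg⟩ := e.surjective ((0 : ZMod 2), (2 : ZMod 6))
    have h9 : 3 • g = 0 := by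
      apply e.injective
      rw [map_nsmul, hg, map_zero]
      decide
    have h10 : (g : ((inducedCurve a b c)⁄K).Point) = 0 := by
      apply h3
      have := congrArg (fun z : AddCommGroup.torsion ((inducedCurve a b c)⁄K).Point =>
        (z : ((inducedCurve a b c)⁄K).Point)) h9
      simpa using this
    have h11 : g = 0 := by
      apply Subtype.ext; simpa using h10
    rw [h11, map_zero] at hg
    revert hg; decide

end Pool.Agent.Results.MP_618be3_nt.NoZ2Z6
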